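import Pool.Agent.H185.TO.Tra

/-!
# Orbits tending to infinity for generic potentials: escape, a persistent barrier or dense orbits

`𝓕` is the space of potentials `f ∈ C^k(M × 𝕋)` (any topological space), `X` the phase space
`TM × 𝕋` (any locally compact Hausdorff space with countable basis), `Φ.φ f` the Euler-Lagrange flow
of `L + f` (any family of complete flows which is jointly continuous in the potential, the time and
the initial condition), and `μ f` the Liouville measure (any invariant measure which is finite on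
compact sets and positive on open sets).

* `Escapes φ x`: the orbit of `x` leaves every compact set as `t → +∞` (tends to infinity);
* `Meets φ U W`: some orbit passes through `U` and through `W` (in any order of time);
* `DenseOrbit φ x`: the set of the `φ t x`, `t > T`, is dense for every `T`;
* `rev φ`: the flow with the time reversed.
-/

set_option autoImplicit false

namespace Pool.Agent.Results.MP_6acca1_an.BarrierOrDenseOrbits

open Filter Topology Set MeasureTheory Pool.Agent.Q205.Wand Pool.Agent.H185.TO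

/-- **Theorem.**
1. Suppose that no orbit of `L + f` tends to infinity as `t → +∞`. If any two nonempty open sets are
   met by one orbit, then for the generic point `x` the orbit of `x` after every time and before
   every time is dense.
2. Let `𝓦` be an open set of potentials such that for every nonempty open `𝓥 ⊆ 𝓦` and all nonempty
   open sets `U`, `W` some `L + f`, `f ∈ 𝓥`, has an orbit which meets `U` and `W`. Then for generic
   `f ∈ 𝓦` either `L + f` has an orbit which tends to infinity, or the orbit of the generic point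
   is dense in both directions of time.
3. If it is not true that for generic `f` the flow of `L + f` has an orbit tending to infinity, then
   there is a nonempty open set `𝓥` of potentials such that either (a) there are nonempty open sets
   `U`, `W` of phase space such that for EVERY `f ∈ 𝓥` no orbit of `L + f` meets both `U` and `W`,
   or (b) for generic `f ∈ 𝓥` the orbit of the generic point is dense in both directions of time
   (after every time and before every time). -/
theorem result {𝓕 X : Type*} [TopologicalSpace 𝓕] [TopologicalSpace X] [Nonempty X]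
    [LocallyCompactSpace X] [SecondCountableTopology X] [T2Space X] [MeasurableSpace X]
    [BorelSpace X] (Φ : FlowFamily 𝓕 X) (μ : 𝓕 → Measure X)
    [∀ f, IsFiniteMeasureOnCompacts (μ f)] [∀ f, (μ f).IsOpenPosMeasure]
    (hμ : ∀ f t, MeasurePreserving (Φ.φ f t) (μ f) (μ f)) :
    (∀ f, (∀ x, ¬ Escapes (Φ.φ f) x) →
      (∀ U W : Set X, IsOpen U → U.Nonempty → IsOpen W → W.Nonempty → Meets (Φ.φ f) U W) →
      ∀ᶠ x in residual X, DenseOrbit (Φ.φ f) x ∧ DenseOrbit (rev (Φ.φ f)) x) ∧
    (∀ 𝓦 : Set 𝓕, IsOpen 𝓦 →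
      (∀ 𝓥 : Set 𝓕, IsOpen 𝓥 → 𝓥.Nonempty → 𝓥 ⊆ 𝓦 → ∀ U W : Set X,
        IsOpen U → U.Nonempty → IsOpen W → W.Nonempty → ∃ f ∈ 𝓥, Meets (Φ.φ f) U W) →
      ∀ᶠ f in residual 𝓕, f ∈ 𝓦 → (∃ x, Escapes (Φ.φ f) x) ∨
        ∀ᶠ x in residual X, DenseOrbit (Φ.φ f) x ∧ DenseOrbit (rev (Φ.φ f)) x) ∧
    ((¬ ∀ᶠ f in residual 𝓕, ∃ x, Escapes (Φ.φ f) x) → ∃ 𝓥 : Set 𝓕, IsOpen 𝓥 ∧ 𝓥.Nonempty ∧
      ((∃ U W : Set X, IsOpen U ∧ U.Nonempty ∧ IsOpen W ∧ W.Nonempty ∧
          ∀ f ∈ 𝓥, ¬ Meets (Φ.φ f) U W) ∨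
        ∀ᶠ f in residual 𝓕, f ∈ 𝓥 →
          ∀ᶠ x in residual X, DenseOrbit (Φ.φ f) x ∧ DenseOrbit (rev (Φ.φ f)) x)) := by
  have hesc : ∀ f x, Wandering (Φ.φ f) x → ∃ y, Escapes (Φ.φ f) y := by
    rintro f x ⟨V, hV, hxV, T, hT⟩
    have h1 := escape_of_wandering (Φ.isFlow f) (μ f) (hμ f) hV hT
    have hpos : μ f V ≠ 0 := (hV.measure_pos (μ f) ⟨x, hxV⟩).ne'
    have h2 : ∃ y ∈ V, Escapes (Φ.φ f) y := by
      by_contra hno
      push Not at hno
      apply hpos
      refine measure_mono_null ?_ h1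
      intro y hy hyy
      exact hno y hy (hyy hy).1
    obtain ⟨y, _, hy⟩ := h2
    exact ⟨y, hy⟩
  have hone : ∀ f, (∀ x, ¬ Escapes (Φ.φ f) x) →
      (∀ U W : Set X, IsOpen U → U.Nonempty → IsOpen W → W.Nonempty → Meets (Φ.φ f) U W) →
      ∀ᶠ x in residual X, DenseOrbit (Φ.φ f) x ∧ DenseOrbit (rev (Φ.φ f)) x := by
    intro f hno hm
    refine dense_both (Φ.isFlow f) (fun x hx => ?_) hm
    obtain ⟨y, hy⟩ := hesc f x hx
    exact hno y hy
  refine ⟨hone, ?_, ?_⟩
  · intro 𝓦 h𝓦 hcond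
    filter_upwards [generic_meets Φ h𝓦 hcond] with f hf hf𝓦
    by_cases he : ∃ x, Escapes (Φ.φ f) x
    · exact Or.inl he
    · exact Or.inr (hone f (fun x hx => he ⟨x, hx⟩) (hf hf𝓦))
  · intro hneg
    set 𝓐 : Set 𝓕 := {f | ∃ x, StablyWandering Φ f x} with h𝓐
    have ho : IsOpen 𝓐 := by
      have : 𝓐 = Prod.fst '' {z : 𝓕 × X | StablyWandering Φ z.1 z.2} := by
        ext f
        simp [h𝓐]
      rw [this]
      exact isOpenMap_fst _ (isOpen_stably Φ)
    have hnd : ¬ Dense 𝓐 := by
      intro hd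
      apply hneg
      filter_upwards [residual_of_dense_open ho hd] with f hf
      obtain ⟨x, hx⟩ := hf
      exact hesc f x (wandering_of_stably hx)
    have hne : ((closure 𝓐)ᶜ).Nonempty := by
      by_contra hemp
      rw [Set.not_nonempty_iff_eq_empty, Set.compl_empty_iff] at hemp
      exact hnd (dense_iff_closure_eq.2 hemp)
    by_cases hs : ∃ 𝓥 : Set 𝓕, IsOpen 𝓥 ∧ 𝓥.Nonempty ∧ 𝓥 ⊆ (closure 𝓐)ᶜ ∧ ∃ U W : Set X,
        IsOpen U ∧ U.Nonempty ∧ IsOpen W ∧ W.Nonempty ∧ ∀ f ∈ 𝓥, ¬ Meets (Φ.φ f) U W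
    · obtain ⟨𝓥, h1, h2, _, h3⟩ := hs
      exact ⟨𝓥, h1, h2, Or.inl h3⟩
    · refine ⟨(closure 𝓐)ᶜ, isClosed_closure.isOpen_compl, hne, Or.inr ?_⟩
      have hcond : ∀ 𝓥 : Set 𝓕, IsOpen 𝓥 → 𝓥.Nonempty → 𝓥 ⊆ (closure 𝓐)ᶜ → ∀ U W : Set X,
          IsOpen U → U.Nonempty → IsOpen W → W.Nonempty → ∃ f ∈ 𝓥, Meets (Φ.φ f) U W := by
        intro 𝓥 h1 h2 h3 U W hU hUn hW hWn
        by_contra hno
        push Not at hno
        exact hs ⟨𝓥, h1, h2, h3, U, W, hU, hUn, hW, hWn, hno⟩
      filter_upwards [generic_wandering Φ,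
        generic_meets Φ isClosed_closure.isOpen_compl hcond] with f hf hfm hfV
      exact dense_both (Φ.isFlow f)
        (fun x hx => hfV (subset_closure ⟨x, hf x hx⟩)) (hfm hfV)

end Pool.Agent.Results.MP_6acca1_an.BarrierOrDenseOrbits
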