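import Pool.Agent.Q205.Wand.Family

/-!
# Orbits tending to infinity for generic potentials: a generic alternative

`𝓕` is the space of potentials `f ∈ C^k(M × 𝕋)` (any topological space), `X` the phase space
`TM × 𝕋` (any locally compact Hausdorff space with countable basis), `Φ.φ f` the Euler-Lagrange flow
of `L + f` (any family of complete flows which is jointly continuous in the potential, the time and
the initial condition), and `μ f` the Liouville measure (any invariant measure which is finite on
compact sets and positive on open sets).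

* `Escapes φ x`: the orbit of `x` leaves every compact set as `t → +∞` (tends to infinity);
* `Recurrent φ x`: the orbit returns to every neighbourhood of `x` at arbitrarily large times;
* `rev φ`: the flow with the time reversed;
* `Wandering φ x`: some neighbourhood of `x` does not meet its images at large times;
* `StablyWandering Φ f x`: the same with one neighbourhood of `x` and one time bound for all
  parameters near `f`.
-/

set_option autoImplicit false

namespace Pool.Agent.Results.MP_6acca1_an.GenericAlternative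

open Filter Topology Set MeasureTheory Pool.Agent.Q205.Wand

/-- **Theorem.**
1. For generic `f` every wandering point of the flow of `L + f` is stably wandering.
2. If `(f, x)` is stably wandering, there are neighbourhoods `𝓥` of `f` and `V` of `x` such that for
   EVERY `f' ∈ 𝓥` almost all orbits starting in `V` tend to infinity in both directions of time.
3. If no orbit of `L + f` tends to infinity as `t → +∞`, then there are no wandering points, and
   almost every point and the generic point of phase space is recurrent in both directions of time.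
4. If it is not true that for generic `f` the flow of `L + f` has an orbit tending to infinity, then
   there is a nonempty open set `𝓥` of potentials such that for generic `f ∈ 𝓥` there are no
   wandering points and the generic point of phase space is recurrent in both directions of time. -/
theorem result {𝓕 X : Type*} [TopologicalSpace 𝓕] [TopologicalSpace X] [Nonempty X]
    [LocallyCompactSpace X] [SecondCountableTopology X] [T2Space X] [MeasurableSpace X]
    [BorelSpace X] (Φ : FlowFamily 𝓕 X) (μ : 𝓕 → Measure X)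
    [∀ f, IsFiniteMeasureOnCompacts (μ f)] [∀ f, (μ f).IsOpenPosMeasure]
    (hμ : ∀ f t, MeasurePreserving (Φ.φ f t) (μ f) (μ f)) :
    (∀ᶠ f in residual 𝓕, ∀ x, Wandering (Φ.φ f) x → StablyWandering Φ f x) ∧
    (∀ f x, StablyWandering Φ f x → ∃ 𝓥 ∈ 𝓝 f, ∃ V ∈ 𝓝 x, ∀ f' ∈ 𝓥, ∀ᵐ y ∂(μ f'), y ∈ V →
      Escapes (Φ.φ f') y ∧ Escapes (rev (Φ.φ f')) y) ∧
    (∀ f, (∀ x, ¬ Escapes (Φ.φ f) x) → (∀ x, ¬ Wandering (Φ.φ f) x) ∧
      (∀ᵐ x ∂(μ f), Recurrent (Φ.φ f) x ∧ Recurrent (rev (Φ.φ f)) x) ∧
      ∀ᶠ x in residual X, Recurrent (Φ.φ f) x ∧ Recurrent (rev (Φ.φ f)) x) ∧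
    ((¬ ∀ᶠ f in residual 𝓕, ∃ x, Escapes (Φ.φ f) x) → ∃ 𝓥 : Set 𝓕, IsOpen 𝓥 ∧ 𝓥.Nonempty ∧
      ∀ᶠ f in residual 𝓕, f ∈ 𝓥 → (∀ x, ¬ Wandering (Φ.φ f) x) ∧
        ∀ᶠ x in residual X, Recurrent (Φ.φ f) x ∧ Recurrent (rev (Φ.φ f)) x) := by
  have hrec : ∀ f, (∀ x, ¬ Wandering (Φ.φ f) x) →
      ∀ᶠ x in residual X, Recurrent (Φ.φ f) x ∧ Recurrent (rev (Φ.φ f)) x := by
    intro f hw
    have h1 := residual_recurrent (Φ.isFlow f) isOpen_univ (fun x _ => hw x)
    have h2 := residual_recurrent (Φ.isFlow f).rev isOpen_univ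
      (fun x _ => fun h => hw x ((wandering_rev (Φ.isFlow f) x).1 h))
    filter_upwards [h1, h2] with x hx1 hx2
    exact ⟨hx1 (mem_univ x), hx2 (mem_univ x)⟩
  have hesc : ∀ f x, Wandering (Φ.φ f) x → ∃ y, Escapes (Φ.φ f) y := by
    rintro f x ⟨V, hV, hxV, T, hT⟩
    have h1 := escape_of_wandering (Φ.isFlow f) (μ f) (hμ f) hV hT
    have hpos : μ f V ≠ 0 := (hV.measure_pos (μ f) ⟨x, hxV⟩).ne'
    have h2 : ∃ y ∈ V, Escapes (Φ.φ f) y := by
      by_contra hno
      push_neg at hno
      apply hpos
      refine measure_mono_null ?_ h1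
      intro y hy hyy
      exact hno y hy (hyy hy).1
    obtain ⟨y, _, hy⟩ := h2
    exact ⟨y, hy⟩
  have hgen := generic_wandering Φ
  refine ⟨hgen, ?_, ?_, ?_⟩
  · rintro f x ⟨𝓥, h𝓥, hf, V, hV, hx, T, hT⟩
    exact ⟨𝓥, h𝓥.mem_nhds hf, V, hV.mem_nhds hx, fun f' hf' =>
      escape_of_wandering (Φ.isFlow f') (μ f') (hμ f') hV (hT f' hf')⟩
  · intro f hno
    have hw : ∀ x, ¬ Wandering (Φ.φ f) x := fun x hx => by
      obtain ⟨y, hy⟩ := hesc f x hx
      exact hno y hy
    refine ⟨hw, ?_, hrec f hw⟩
    filter_upwards [hopf (Φ.isFlow f) (μ f) (hμ f)] with x hx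
    rcases hx with hx | hx
    · exact absurd hx.1 (hno x)
    · exact hx
  · intro hneg
    set 𝓐 : Set 𝓕 := {f | ∃ x, StablyWandering Φ f x} with h𝓐
    have ho : IsOpen 𝓐 := by
      have : 𝓐 = Prod.fst '' {z : 𝓕 × X | StablyWandering Φ z.1 z.2} := by
        ext f
        simp [h𝓐]
      rw [this]
      exact isOpenMap_fst _ (isOpen_stably Φ)
    have hnd : ¬ Dense 𝓐 := by
      intro hd
      apply hneg
      filter_upwards [residual_of_dense_open ho hd] with f hf
      obtain ⟨x, hx⟩ := hf
      exact hesc f x (wandering_of_stably hx)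
    refine ⟨(closure 𝓐)ᶜ, isClosed_closure.isOpen_compl, ?_, ?_⟩
    · by_contra hemp
      rw [Set.not_nonempty_iff_eq_empty, Set.compl_empty_iff] at hemp
      exact hnd (dense_iff_closure_eq.2 hemp)
    · filter_upwards [hgen] with f hf hfV
      have hw : ∀ x, ¬ Wandering (Φ.φ f) x := fun x hx =>
        hfV (subset_closure ⟨x, hf x hx⟩)
      exact ⟨hw, hrec f hw⟩

end Pool.Agent.Results.MP_6acca1_an.GenericAlternative
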