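import Pool.Agent.H185.TO.Met

/-!
# Bounded orbits of positive measure, or almost every orbit escapes or oscillates

`𝓕` is the space of potentials `f ∈ C^k(M × 𝕋)` (any topological space), `X` the phase space
`TM × 𝕋` (any locally compact Hausdorff space with countable basis), `Φ.φ f` the Euler-Lagrange flow
of `L + f` (any family of complete flows which is jointly continuous in the potential, the time and
the initial condition), and `μ` the Liouville measure, which does not depend on `f` (any measure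
finite on compact sets and invariant under all the flows).

* `Escapes φ x`: the orbit of `x` leaves every compact set as `t → +∞` (tends to infinity);
* `Recurrent φ x`: the orbit returns to every neighbourhood of `x` at arbitrarily large times;
* `Unbounded φ x`: the orbit is outside of every compact set at arbitrarily large times;
* `Oscillates φ x`: `x` is recurrent and unbounded;
* `Stay φ K`: the set of the points whose whole orbit is in `K`;
* `rev φ`: the flow with the time reversed.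
-/

set_option autoImplicit false

namespace Pool.Agent.Results.MP_6acca1_an.MetricAlternative

open Filter Topology Set MeasureTheory Pool.Agent.Q205.Wand Pool.Agent.H185.TO

/-- **Theorem.**
1. For every `f` and every compact `K` almost every orbit which is in `K` from some time on is in
   `K` at all times.
2. For every compact `K` the measure of the set of the orbits of `L + f` which are in `K` at all
   times is upper semicontinuous in `f`, hence continuous at generic `f`.
3. Let `𝓦` be an open set of potentials. Either (a) there are a nonempty open set `𝓥 ⊆ 𝓦`, a compact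
   set `K` and `ε > 0` such that for EVERY `f ∈ 𝓥` the set of the orbits which are in `K` at all
   times has measure at least `ε`, or (b) for generic `f ∈ 𝓦` almost every orbit is unbounded in
   both directions of time, and moreover almost every orbit tends to infinity in both directions or
   oscillates in both directions.
4. If `𝓕` is a Baire space and `𝓥`, `K`, `ε` are as in (a), it is not true that for generic `f ∈ 𝓥`
   almost every orbit is unbounded. -/
theorem result {𝓕 X : Type*} [TopologicalSpace 𝓕] [TopologicalSpace X]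
    [LocallyCompactSpace X] [SecondCountableTopology X] [T2Space X] [MeasurableSpace X]
    [BorelSpace X] (Φ : FlowFamily 𝓕 X) (μ : Measure X) [IsFiniteMeasureOnCompacts μ]
    (hμ : ∀ f t, MeasurePreserving (Φ.φ f t) μ μ) :
    (∀ (f : 𝓕) (K : Set X), IsCompact K → ∀ᵐ x ∂μ,
      (∃ T : ℝ, ∀ t, T < t → Φ.φ f t x ∈ K) → x ∈ Stay (Φ.φ f) K) ∧
    (∀ K : Set X, IsCompact K →
      (∀ c : ENNReal, IsOpen {f : 𝓕 | μ (Stay (Φ.φ f) K) < c}) ∧
      ∀ᶠ f in residual 𝓕, ContinuousAt (fun f' => μ (Stay (Φ.φ f') K)) f) ∧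
    (∀ 𝓦 : Set 𝓕, IsOpen 𝓦 →
      (∃ 𝓥 : Set 𝓕, IsOpen 𝓥 ∧ 𝓥.Nonempty ∧ 𝓥 ⊆ 𝓦 ∧ ∃ K : Set X, IsCompact K ∧
        ∃ ε : ENNReal, 0 < ε ∧ ∀ f ∈ 𝓥, ε ≤ μ (Stay (Φ.φ f) K)) ∨
      ∀ᶠ f in residual 𝓕, f ∈ 𝓦 →
        (∀ᵐ x ∂μ, Unbounded (Φ.φ f) x ∧ Unbounded (rev (Φ.φ f)) x) ∧
        ∀ᵐ x ∂μ, (Escapes (Φ.φ f) x ∧ Escapes (rev (Φ.φ f)) x) ∨
          (Oscillates (Φ.φ f) x ∧ Oscillates (rev (Φ.φ f)) x)) ∧
    (BaireSpace 𝓕 → ∀ 𝓥 : Set 𝓕, IsOpen 𝓥 → 𝓥.Nonempty → ∀ K : Set X, IsCompact K →
      ∀ ε : ENNReal, 0 < ε → (∀ f ∈ 𝓥, ε ≤ μ (Stay (Φ.φ f) K)) →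
      ¬ ∀ᶠ f in residual 𝓕, f ∈ 𝓥 → ∀ᵐ x ∂μ, Unbounded (Φ.φ f) x) := by
  have husc : ∀ K : Set X, IsCompact K → ∀ c : ENNReal,
      IsOpen {f : 𝓕 | μ (Stay (Φ.φ f) K) < c} := fun K hK c => isOpen_stay_lt Φ μ hK c
  refine ⟨fun f K hK => eventually_stay (Φ.isFlow f) μ (hμ f) hK,
    fun K hK => ⟨husc K hK, generic_continuousAt (husc K hK)⟩, ?_, ?_⟩
  · intro 𝓦 h𝓦
    by_cases ha : ∃ 𝓥 : Set 𝓕, IsOpen 𝓥 ∧ 𝓥.Nonempty ∧ 𝓥 ⊆ 𝓦 ∧ ∃ K : Set X, IsCompact K ∧
        ∃ ε : ENNReal, 0 < ε ∧ ∀ f ∈ 𝓥, ε ≤ μ (Stay (Φ.φ f) K)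
    · exact Or.inl ha
    · right
      let E : CompactExhaustion X := CompactExhaustion.choice X
      have key : ∀ a : ℕ × ℕ, ∀ᶠ f in residual 𝓕, f ∈ 𝓦 →
          μ (Stay (Φ.φ f) (E a.1)) < ((a.2 : ENNReal) + 1)⁻¹ := by
        rintro ⟨n, m⟩
        have hε : (0 : ENNReal) < ((m : ENNReal) + 1)⁻¹ :=
          ENNReal.inv_pos.2 (ENNReal.add_ne_top.2 ⟨ENNReal.natCast_ne_top m, ENNReal.one_ne_top⟩)
        set D : Set 𝓕 := {f | μ (Stay (Φ.φ f) (E n)) < ((m : ENNReal) + 1)⁻¹} with hD
        have hDo : IsOpen D := husc _ (E.isCompact n) _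
        have hdense : Dense (D ∪ (closure 𝓦)ᶜ) := by
          rw [dense_iff_inter_open]
          intro W hW hWn
          by_cases hWU : (W ∩ 𝓦).Nonempty
          · by_contra hno
            rw [Set.not_nonempty_iff_eq_empty] at hno
            refine ha ⟨W ∩ 𝓦, hW.inter h𝓦, hWU, Set.inter_subset_right, E n, E.isCompact n,
              ((m : ENNReal) + 1)⁻¹, hε, ?_⟩
            intro f hf
            by_contra hlt
            have : f ∈ W ∩ (D ∪ (closure 𝓦)ᶜ) := ⟨hf.1, Or.inl (not_le.1 hlt)⟩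
            rw [hno] at this
            exact this
          · obtain ⟨x, hx⟩ := hWn
            refine ⟨x, hx, Or.inr ?_⟩
            intro hxc
            exact hWU (mem_closure_iff.1 hxc W hW hx)
        filter_upwards [residual_of_dense_open (hDo.union isClosed_closure.isOpen_compl) hdense]
          with f hf hf𝓦
        rcases hf with hf | hf
        · exact hf
        · exact absurd (subset_closure hf𝓦) hf
      filter_upwards [eventually_countable_forall.2 key] with f hf hf𝓦
      have hzero : ∀ n, μ (Stay (Φ.φ f) (E n)) = 0 := by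
        intro n
        by_contra hne
        have hpos : (0 : ENNReal) < μ (Stay (Φ.φ f) (E n)) := pos_iff_ne_zero.2 hne
        obtain ⟨m, hm⟩ := ENNReal.exists_inv_nat_lt hne
        have h1 := hf (n, m) hf𝓦
        have h2 : ((m : ENNReal) + 1)⁻¹ ≤ (m : ENNReal)⁻¹ :=
          ENNReal.inv_le_inv.2 le_self_add
        exact absurd (h1.trans_le h2) (not_lt.2 hm.le)
      have hzero' : ∀ n, μ (Stay (rev (Φ.φ f)) (E n)) = 0 := fun n => by
        rw [stay_rev]
        exact hzero n
      have h1 := unbounded_of_null (Φ.isFlow f) μ (hμ f) E hzero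
      have h2 := unbounded_of_null (Φ.isFlow f).rev μ (fun t => hμ f (-t)) E hzero'
      refine ⟨h1.and h2, ?_⟩
      filter_upwards [h1, h2, hopf (Φ.isFlow f) μ (hμ f)] with x hx1 hx2 hx3
      rcases hx3 with hx3 | hx3
      · exact Or.inl hx3
      · exact Or.inr ⟨⟨hx3.1, hx1⟩, ⟨hx3.2, hx2⟩⟩
  · intro hB 𝓥 h𝓥 hne K hK ε hε hall hgen
    obtain ⟨f, hf, hfV⟩ := (dense_of_mem_residual hgen).inter_open_nonempty 𝓥 h𝓥 hne
    have h1 : ∀ᵐ x ∂μ, Unbounded (Φ.φ f) x := hfV hf
    have h2 : μ (Stay (Φ.φ f) K) = 0 := by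
      rw [measure_eq_zero_iff_ae_notMem]
      filter_upwards [h1] with x hx hxS
      obtain ⟨t, _, ht⟩ := hx K hK 0
      exact ht (hxS t)
    have := hall f hf
    rw [h2] at this
    exact absurd hε (not_lt.2 this)

end Pool.Agent.Results.MP_6acca1_an.MetricAlternative
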