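import Pool.Agent.H185.TO.Alt

/-!
# Orbits tending to infinity for generic potentials: escape, perpetual stability or oscillation

`𝓕` is the space of potentials `f ∈ C^k(M × 𝕋)` (any topological space), `X` the phase space
`TM × 𝕋` (any locally compact Hausdorff space with countable basis), `Φ.φ f` the Euler-Lagrange flow
of `L + f` (any family of complete flows which is jointly continuous in the potential, the time and
the initial condition), and `μ f` the Liouville measure (any invariant measure which is finite on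
compact sets and positive on open sets).

* `Escapes φ x`: the orbit of `x` leaves every compact set as `t → +∞` (tends to infinity);
* `Recurrent φ x`: the orbit returns to every neighbourhood of `x` at arbitrarily large times;
* `Unbounded φ x`: the orbit is outside of every compact set at arbitrarily large times;
* `Oscillates φ x`: `x` is recurrent and unbounded;
* `StablyBounded Φ f x`: one compact set contains, for all parameters near `f`, all orbits starting
  near `x`, for all times;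
* `rev φ`: the flow with the time reversed.
-/

set_option autoImplicit false

namespace Pool.Agent.Results.MP_6acca1_an.StabilityOrOscillation

open Filter Topology Set MeasureTheory Pool.Agent.Q205.Wand Pool.Agent.H185.TO

/-- **Theorem.**
1. If `V` is open, `K` compact and the orbits of the points of `V` are in `K` at all times `t > T`,
   then they are in `K` at all times `t ∈ ℝ`.
2. For generic `f` the generic point `x` of phase space is stably bounded or unbounded in both
   directions of time.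
3. If it is not true that for generic `f` the flow of `L + f` has an orbit tending to infinity, then
   there is a nonempty open set `𝓥` of potentials such that either (a) there are a nonempty open set
   `V ⊆ X` and a compact set `K` which contains all orbits starting in `V`, for EVERY `f ∈ 𝓥`, or
   (b) for generic `f ∈ 𝓥` the generic point of phase space oscillates in both directions of time.
4. Let `𝓦` be an open set of potentials such that for every compact set `K` and all nonempty open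
   sets `𝓥 ⊆ 𝓦` and `V ⊆ X` there are `f ∈ 𝓥` and an orbit of `L + f` starting in `V` which is not
   contained in `K`. Then for generic `f ∈ 𝓦` the generic point is unbounded in both directions of
   time, and either `L + f` has an orbit which tends to infinity or the generic point oscillates in
   both directions of time.
5. Conversely, if `𝓕` is a Baire space and for generic `f ∈ 𝓦` the generic point is unbounded, then
   `𝓦` satisfies the condition of 4. -/
theorem result {𝓕 X : Type*} [TopologicalSpace 𝓕] [TopologicalSpace X] [Nonempty X]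
    [LocallyCompactSpace X] [SecondCountableTopology X] [T2Space X] [MeasurableSpace X]
    [BorelSpace X] (Φ : FlowFamily 𝓕 X) (μ : 𝓕 → Measure X)
    [∀ f, IsFiniteMeasureOnCompacts (μ f)] [∀ f, (μ f).IsOpenPosMeasure]
    (hμ : ∀ f t, MeasurePreserving (Φ.φ f t) (μ f) (μ f)) :
    (∀ (f : 𝓕) (V K : Set X) (T : ℝ), IsOpen V → IsCompact K →
      (∀ y ∈ V, ∀ t, T < t → Φ.φ f t y ∈ K) → ∀ y ∈ V, ∀ t, Φ.φ f t y ∈ K) ∧
    (∀ᶠ f in residual 𝓕, ∀ᶠ x in residual X, StablyBounded Φ f x ∨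
      (Unbounded (Φ.φ f) x ∧ Unbounded (rev (Φ.φ f)) x)) ∧
    ((¬ ∀ᶠ f in residual 𝓕, ∃ x, Escapes (Φ.φ f) x) → ∃ 𝓥 : Set 𝓕, IsOpen 𝓥 ∧ 𝓥.Nonempty ∧
      ((∃ V : Set X, IsOpen V ∧ V.Nonempty ∧ ∃ K : Set X, IsCompact K ∧
          ∀ f ∈ 𝓥, ∀ y ∈ V, ∀ t : ℝ, Φ.φ f t y ∈ K) ∨
        ∀ᶠ f in residual 𝓕, f ∈ 𝓥 → ∀ᶠ x in residual X,
          Oscillates (Φ.φ f) x ∧ Oscillates (rev (Φ.φ f)) x)) ∧
    (∀ 𝓦 : Set 𝓕, IsOpen 𝓦 →
      (∀ K : Set X, IsCompact K → ∀ 𝓥 : Set 𝓕, IsOpen 𝓥 → 𝓥.Nonempty → 𝓥 ⊆ 𝓦 →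
        ∀ V : Set X, IsOpen V → V.Nonempty → ∃ f ∈ 𝓥, ∃ y ∈ V, ∃ t : ℝ, Φ.φ f t y ∉ K) →
      ∀ᶠ f in residual 𝓕, f ∈ 𝓦 →
        (∀ᶠ x in residual X, Unbounded (Φ.φ f) x ∧ Unbounded (rev (Φ.φ f)) x) ∧
        ((∃ x, Escapes (Φ.φ f) x) ∨ ∀ᶠ x in residual X,
          Oscillates (Φ.φ f) x ∧ Oscillates (rev (Φ.φ f)) x)) ∧
    (BaireSpace 𝓕 → ∀ 𝓦 : Set 𝓕, IsOpen 𝓦 →
      (∀ᶠ f in residual 𝓕, f ∈ 𝓦 → ∀ᶠ x in residual X, Unbounded (Φ.φ f) x) →
      ∀ K : Set X, IsCompact K → ∀ 𝓥 : Set 𝓕, IsOpen 𝓥 → 𝓥.Nonempty → 𝓥 ⊆ 𝓦 →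
        ∀ V : Set X, IsOpen V → V.Nonempty → ∃ f ∈ 𝓥, ∃ y ∈ V, ∃ t : ℝ, Φ.φ f t y ∉ K) := by
  have hrec : ∀ f, (∀ x, ¬ Wandering (Φ.φ f) x) →
      ∀ᶠ x in residual X, Recurrent (Φ.φ f) x ∧ Recurrent (rev (Φ.φ f)) x := by
    intro f hw
    have h1 := residual_recurrent (Φ.isFlow f) isOpen_univ (fun x _ => hw x)
    have h2 := residual_recurrent (Φ.isFlow f).rev isOpen_univ
      (fun x _ => fun h => hw x ((wandering_rev (Φ.isFlow f) x).1 h))
    filter_upwards [h1, h2] with x hx1 hx2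
    exact ⟨hx1 (mem_univ x), hx2 (mem_univ x)⟩
  have hesc : ∀ f x, Wandering (Φ.φ f) x → ∃ y, Escapes (Φ.φ f) y := by
    rintro f x ⟨V, hV, hxV, T, hT⟩
    have h1 := escape_of_wandering (Φ.isFlow f) (μ f) (hμ f) hV hT
    have hpos : μ f V ≠ 0 := (hV.measure_pos (μ f) ⟨x, hxV⟩).ne'
    have h2 : ∃ y ∈ V, Escapes (Φ.φ f) y := by
      by_contra hno
      push Not at hno
      apply hpos
      refine measure_mono_null ?_ h1
      intro y hy hyy
      exact hno y hy (hyy hy).1
    obtain ⟨y, _, hy⟩ := h2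
    exact ⟨y, hy⟩
  have hrec' : ∀ f, (∀ x, ¬ Escapes (Φ.φ f) x) →
      ∀ᶠ x in residual X, Recurrent (Φ.φ f) x ∧ Recurrent (rev (Φ.φ f)) x := by
    intro f hno
    refine hrec f fun x hx => ?_
    obtain ⟨y, hy⟩ := hesc f x hx
    exact hno y hy
  have hdich := generic_dichotomy Φ μ hμ
  refine ⟨?_, hdich, ?_, ?_, ?_⟩
  · intro f V K T hV hK hT
    exact full_of_forward (Φ.isFlow f) (μ f) (hμ f) hV hK hT
  · intro hneg
    -- the open set of parameters with stably wandering points is not dense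
    set 𝓐 : Set 𝓕 := {f | ∃ x, StablyWandering Φ f x} with h𝓐
    have ho : IsOpen 𝓐 := by
      have : 𝓐 = Prod.fst '' {z : 𝓕 × X | StablyWandering Φ z.1 z.2} := by
        ext f
        simp [h𝓐]
      rw [this]
      exact isOpenMap_fst _ (isOpen_stably Φ)
    have hnd : ¬ Dense 𝓐 := by
      intro hd
      apply hneg
      filter_upwards [residual_of_dense_open ho hd] with f hf
      obtain ⟨x, hx⟩ := hf
      exact hesc f x (wandering_of_stably hx)
    have hne : ((closure 𝓐)ᶜ).Nonempty := by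
      by_contra hemp
      rw [Set.not_nonempty_iff_eq_empty, Set.compl_empty_iff] at hemp
      exact hnd (dense_iff_closure_eq.2 hemp)
    by_cases hs : ∃ f ∈ (closure 𝓐)ᶜ, ∃ x, StablyBounded Φ f x
    · obtain ⟨f, _, x, 𝓥, h𝓥, hf, V, hV, hx, K, hK, hT⟩ := hs
      exact ⟨𝓥, h𝓥, ⟨f, hf⟩, Or.inl ⟨V, hV, ⟨x, hx⟩, K, hK, hT⟩⟩
    · push Not at hs
      refine ⟨(closure 𝓐)ᶜ, isClosed_closure.isOpen_compl, hne, Or.inr ?_⟩
      filter_upwards [generic_wandering Φ, hdich] with f hf hfd hfV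
      have hw : ∀ x, ¬ Wandering (Φ.φ f) x := fun x hx =>
        hfV (subset_closure ⟨x, hf x hx⟩)
      filter_upwards [hrec f hw, hfd] with x hx1 hx2
      rcases hx2 with hx2 | hx2
      · exact absurd hx2 (hs f hfV x)
      · exact ⟨⟨hx1.1, hx2.1⟩, ⟨hx1.2, hx2.2⟩⟩
  · intro 𝓦 h𝓦 hcond
    filter_upwards [hdich] with f hf hf𝓦
    have hns : ∀ x, ¬ StablyBounded Φ f x := by
      rintro x ⟨𝓥, h𝓥, hf', V, hV, hx, K, hK, hT⟩
      obtain ⟨f', hf'', y, hy, t, ht⟩ := hcond K hK (𝓥 ∩ 𝓦) (h𝓥.inter h𝓦) ⟨f, hf', hf𝓦⟩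
        Set.inter_subset_right V hV ⟨x, hx⟩
      exact ht (hT f' hf''.1 y hy t)
    have hub : ∀ᶠ x in residual X, Unbounded (Φ.φ f) x ∧ Unbounded (rev (Φ.φ f)) x := by
      filter_upwards [hf] with x hx
      rcases hx with hx | hx
      · exact absurd hx (hns x)
      · exact hx
    refine ⟨hub, ?_⟩
    by_cases he : ∃ x, Escapes (Φ.φ f) x
    · exact Or.inl he
    · right
      filter_upwards [hub, hrec' f fun x hx => he ⟨x, hx⟩] with x hx1 hx2
      exact ⟨⟨hx2.1, hx1.1⟩, ⟨hx2.2, hx1.2⟩⟩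
  · intro hB 𝓦 _ hun K hK 𝓥 h𝓥 hne h𝓥𝓦 V hV hVne
    obtain ⟨f, hf, hfV⟩ := (dense_of_mem_residual hun).inter_open_nonempty 𝓥 h𝓥 hne
    have h1 := hfV (h𝓥𝓦 hf)
    obtain ⟨x, hxV, hx⟩ := (dense_of_mem_residual h1).inter_open_nonempty V hV hVne
    obtain ⟨t, _, ht⟩ := hx K hK 0
    exact ⟨f, hf, x, hxV, t, ht⟩

end Pool.Agent.Results.MP_6acca1_an.StabilityOrOscillation
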